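import Pool.Agent.Helper97_WHC.Stmt
import Pool.Agent.Helper63_WHT.SIE

/-!
# REL (squad WHC): the Hecke relation for the Whittaker coefficients
-/

set_option autoImplicit false

open scoped BigOperators

namespace Pool.Agent.WHC.H10

open Pool.Agent.DEN Pool.Agent.TMP Pool.Agent.WHT

section

variable {r : ℕ} {C : Matrix (Fin r) (Fin r) ℤ} {K : Type} [Field K]

theorem mem_U0 {N : Polynomial K} {γ : grp C K} :
    γ ∈ U0 C N ↔ γ ∈ Ug C K ∧ γ ∈ cong C K 1 N := Iff.rfl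

variable (hC : SimplyLaced C)

theorem hor_unique {l m : Fin r → ℤ} {x : XX C K} (h1 : x ∈ Hor hC K l) (h2 : x ∈ Hor hC K m) :
    l = m := by
  obtain ⟨u, hu, rfl⟩ := h1
  obtain ⟨v, hv, h3⟩ := h2
  refine (hHor r C hC K).1 (v⁻¹ * u) (mul_mem (inv_mem hv) hu) l m ?_
  rw [mul_smul, h3, inv_smul_smul]

theorem hor_smul {m : Fin r → ℤ} {x : XX C K} {u : grp C K} (hu : u ∈ Ug C K) :
    u • x ∈ Hor hC K m ↔ x ∈ Hor hC K m := by
  constructor
  · rintro ⟨v, hv, h⟩
    exact ⟨u⁻¹ * v, mul_mem (inv_mem hu) hv, by rw [mul_smul, ← h, inv_smul_smul]⟩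
  · rintro ⟨v, hv, rfl⟩
    exact ⟨u * v, mul_mem hu hv, by rw [mul_smul]⟩

theorem wf_eq {N : Polynomial K} {χ : grp C K → ℂ} (hχ : IsChi N χ) {m : Fin r → ℤ}
    (hm : GoodU hC χ m) {u : grp C K} (hu : u ∈ Ug C K) :
    wf hC χ m (u • tp hC K m) = χ u := by
  have h : ∃ v ∈ Ug C K, u • tp hC K m = v • tp hC K m := ⟨u, hu, rfl⟩
  unfold wf
  rw [dif_pos h]
  obtain ⟨h1, h2⟩ := h.choose_spec
  have h3 : (u⁻¹ * h.choose) • tp hC K m = tp hC K m := by
    rw [mul_smul, ← h2, inv_smul_smul]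
  have h4 := hm _ (mul_mem (inv_mem hu) h1) h3
  have h5 := hχ.mul u hu (u⁻¹ * h.choose) (mul_mem (inv_mem hu) h1)
  rw [mul_inv_cancel_left, h4, mul_one] at h5
  exact h5

theorem wf_supp {χ : grp C K → ℂ} {m : Fin r → ℤ} {x : XX C K} (hx : wf hC χ m x ≠ 0) :
    x ∈ Hor hC K m := by
  by_contra h
  apply hx
  unfold wf
  exact dif_neg h

theorem wf_zero {χ : grp C K → ℂ} {m : Fin r → ℤ} {x : XX C K} (hx : x ∉ Hor hC K m) :
    wf hC χ m x = 0 := by
  by_contra h
  exact hx (wf_supp hC h)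

theorem wf_smul {N : Polynomial K} {χ : grp C K → ℂ} (hχ : IsChi N χ) {m : Fin r → ℤ}
    (hm : GoodU hC χ m) {u : grp C K} (hu : u ∈ Ug C K) (x : XX C K) :
    wf hC χ m (u • x) = χ u * wf hC χ m x := by
  by_cases hx : x ∈ Hor hC K m
  · obtain ⟨v, hv, rfl⟩ := hx
    rw [← mul_smul, wf_eq hC hχ hm (mul_mem hu hv), wf_eq hC hχ hm hv, hχ.mul u hu v hv]
  · rw [wf_zero hC hx, mul_zero]
    exact wf_zero hC fun h => hx ((hor_smul hC hu).1 h)

/-- the horocycles are finite modulo `U ∩ Γ(N)` -/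
theorem hor_fin [Finite K] {N : Polynomial K} (hN : N ≠ 0) (m : Fin r → ℤ) :
    {o : MulAction.orbitRel.Quotient (U0 C N) (XX C K) | o.out ∈ Hor hC K m}.Finite := by
  obtain ⟨s1, -, -⟩ := H63.sie r C hC K
  have hUO : UO hC K ≤ maxK C K := by
    refine (Subgroup.closure_le _).2 ?_
    rintro g ⟨β, a, -, ha, rfl⟩
    exact xg_maxK hC β ha
  have hF : {y : XX C K | ∃ l ∈ maxK C K, y = l • tp hC K m}.Finite := by
    refine (hKfin r C hC K (tg hC K m)).subset ?_
    rintro y ⟨l, hl, rfl⟩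
    exact ⟨l, hl, rfl⟩
  have hfin := (H22.hFin r C hC K).2.2 N hN
  let A : Subgroup (grp C K) := Ug C K ⊓ arith C K 1
  have hA : A ≤ arith C K 1 := inf_le_right
  have h1 : ((cong C K 1 N).subgroupOf A).index ≠ 0 := by
    intro h
    exact hfin (Subgroup.relIndex_eq_zero_of_le_right hA h)
  have : Finite (A ⧸ (cong C K 1 N).subgroupOf A) := Subgroup.index_ne_zero_iff_finite.1 h1
  have h2 : (Set.univ : Set (A ⧸ (cong C K 1 N).subgroupOf A)).Finite := Set.finite_univ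
  refine ((h2.prod hF).image fun q => Quotient.mk (MulAction.orbitRel (U0 C N) (XX C K))
    ((q.1.out.1)⁻¹ • q.2)).subset ?_
  rintro o ⟨u, hu, h2⟩
  obtain ⟨a, ha, ha', c, hc, rfl⟩ := s1 u hu
  rw [mul_smul] at h2
  let b : A := ⟨a, ⟨ha, ha'⟩⟩
  refine ⟨((QuotientGroup.mk b⁻¹ : A ⧸ (cong C K 1 N).subgroupOf A), c • tp hC K m),
    ⟨Set.mem_univ _, ⟨c, hUO hc, rfl⟩⟩, ?_⟩
  set q : A ⧸ (cong C K 1 N).subgroupOf A := QuotientGroup.mk b⁻¹ with hq
  have h3 : (QuotientGroup.mk q.out : A ⧸ (cong C K 1 N).subgroupOf A) =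
      QuotientGroup.mk b⁻¹ := by
    rw [QuotientGroup.out_eq']
  rw [QuotientGroup.eq, Subgroup.mem_subgroupOf] at h3
  have h4 : (q.out.1)⁻¹ * a⁻¹ ∈ cong C K 1 N := h3
  have h5 : (q.out.1)⁻¹ * a⁻¹ ∈ U0 C N :=
    mem_U0.2 ⟨mul_mem (inv_mem q.out.2.1) (inv_mem ha), h4⟩
  show Quotient.mk (MulAction.orbitRel (U0 C N) (XX C K)) ((q.out.1)⁻¹ • (c • tp hC K m)) = o
  conv_rhs => rw [← Quotient.out_eq o]
  apply Quotient.sound
  show (MulAction.orbitRel (U0 C N) (XX C K)) _ _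
  rw [MulAction.orbitRel_apply]
  refine ⟨⟨_, h5⟩, ?_⟩
  show ((q.out.1)⁻¹ * a⁻¹) • o.out = _
  rw [h2, mul_smul, inv_smul_smul]

include hC in
theorem stab_fin [Finite K] (N : Polynomial K) (x : XX C K) :
    Finite (MulAction.stabilizer (U0 C N) x) := by
  have h := (H22.hFin r C hC K).2.1 N x
  refine Finite.of_injective (β := MulAction.stabilizer (cong C K 1 N) x)
    (fun g => ⟨⟨g.1.1, (mem_U0.1 g.1.2).2⟩, g.2⟩) ?_
  intro g g' hg
  apply Subtype.ext
  apply Subtype.ext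
  exact congrArg (fun t : MulAction.stabilizer (cong C K 1 N) x => t.1.1) hg

/-- the Hecke operator -/
noncomputable def TW (k : XX C K → XX C K → ℂ) (W : XX C K → ℂ) (y : XX C K) : ℂ :=
  ∑ᶠ x, kst k y x * W x

include hC in
/-- adjointness -/
theorem adj [Finite K] {N : Polynomial K} {k : XX C K → XX C K → ℂ} (hk : IsKer k)
    {f W : XX C K → ℂ} {lam : ℂ} (hf : ∀ γ ∈ U0 C N, ∀ x, f (γ • x) = f x)
    (hlam : ∀ x, ∑ᶠ y, k x y * f y = lam * f x)
    (hW : ∀ γ ∈ U0 C N, ∀ x, W (γ • x) = W x)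
    (hfin : {o : MulAction.orbitRel.Quotient (U0 C N) (XX C K) | W o.out ≠ 0}.Finite) :
    lam * H6.pet (U0 C N) W f = H6.pet (U0 C N) (TW k W) f := by
  have hcol := (hKer r C hC K).1 k hk
  have h := DEN.TMP.hMtp (U0 C N) (XX C K) (stab_fin hC N)
    (fun x y => (starRingEnd ℂ) (W x) * (k x y * f y)) (by
      intro γ x y
      show (starRingEnd ℂ) (W (γ.1 • x)) * (k (γ.1 • x) (γ.1 • y) * f (γ.1 • y)) = _
      rw [hW γ.1 γ.2, hf γ.1 γ.2, hk.inv]) (by
      intro x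
      refine (hk.fin x).subset fun y hy => ?_
      exact left_ne_zero_of_mul (right_ne_zero_of_mul hy)) (by
      intro y
      refine (hcol y).subset fun x hx => ?_
      exact left_ne_zero_of_mul (right_ne_zero_of_mul hx)) (by
      refine hfin.subset ?_
      rintro o ⟨y, hy⟩ h0
      apply hy
      rw [h0, map_zero, zero_mul])
  have e1 : ∀ x, ∑ᶠ y, (starRingEnd ℂ) (W x) * (k x y * f y) =
      lam * ((starRingEnd ℂ) (W x) * f x) := by
    intro x
    rw [← mul_finsum, hlam]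
    ring
  have e2 : ∀ y, ∑ᶠ x, (starRingEnd ℂ) (W x) * (k x y * f y) =
      (starRingEnd ℂ) (TW k W y) * f y := by
    intro y
    have hs : (Function.support fun x => kst k y x * W x).Finite := by
      refine (hcol y).subset fun x hx => ?_
      have h1 := left_ne_zero_of_mul hx
      intro h2
      apply h1
      unfold kst
      rw [h2, map_zero]
    have h1 : (starRingEnd ℂ) (TW k W y) = ∑ᶠ x, (starRingEnd ℂ) (kst k y x * W x) :=
      (starRingEnd ℂ).toAddMonoidHom.map_finsum hs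
    have h2 : ∀ x, (starRingEnd ℂ) (kst k y x * W x) = k x y * (starRingEnd ℂ) (W x) := by
      intro x
      unfold kst
      rw [map_mul, starRingEnd_self_apply]
    rw [h1, finsum_congr h2, finsum_mul]
    refine finsum_congr fun x => ?_
    ring
  simp only [e1, e2] at h
  unfold H6.pet
  refine Eq.trans ?_ h
  refine (mul_finsum _ _).trans (finsum_congr fun o => ?_)
  exact (mul_div_assoc _ _ _).symm

variable {N : Polynomial K} {χ : grp C K → ℂ} (hχ : IsChi N χ)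
include hχ

theorem TW_smul [Finite K] {k : XX C K → XX C K → ℂ} (hk : IsKer k) {m : Fin r → ℤ}
    (hm : GoodU hC χ m) {u : grp C K} (hu : u ∈ Ug C K) (y : XX C K) :
    TW k (wf hC χ m) (u • y) = χ u * TW k (wf hC χ m) y := by
  have hkst := (hKer r C hC K).2.2.1 k hk
  unfold TW
  rw [mul_finsum, ← finsum_comp_equiv (MulAction.toPerm u)]
  refine finsum_congr fun x => ?_
  show kst k (u • y) (u • x) * wf hC χ m (u • x) = _
  rw [hkst.inv, wf_smul hC hχ hm hu]
  ring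

theorem wa_zero [Finite K] {k : XX C K → XX C K → ℂ} (hk : IsKer k) {m m' : Fin r → ℤ}
    (hm : GoodU hC χ m) (hm' : ¬ GoodU hC χ m') : wa hC χ (kst k) m' m = 0 := by
  unfold GoodU at hm'
  push Not at hm'
  obtain ⟨u, hu, h1, h2⟩ := hm'
  have h3 := TW_smul hC hχ hk hm hu (tp hC K m')
  rw [h1] at h3
  have h4 : TW k (wf hC χ m) (tp hC K m') = wa hC χ (kst k) m' m := rfl
  rw [h4] at h3
  by_contra h5
  apply h2
  have h6 : (χ u - 1) * wa hC χ (kst k) m' m = 0 := by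
    rw [sub_mul, one_mul, ← h3, sub_self]
  rcases mul_eq_zero.1 h6 with h7 | h7
  · exact sub_eq_zero.1 h7
  · exact absurd h7 h5

omit hχ in
theorem bt_fin [Finite K] {k : XX C K → XX C K → ℂ} (hk : IsKer k) (m : Fin r → ℤ) :
    {m' | bt hC χ k m m' ≠ 0}.Finite := by
  classical
  have hw : ∀ x : XX C K, ∃ l, x ∈ Hor hC K l := by
    intro x
    obtain ⟨u, hu, l, h⟩ := iwa hC x
    exact ⟨l, u, hu, h⟩
  choose idx hidx using hw
  refine ((hk.fin (tp hC K m)).image idx).subset ?_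
  intro m' hm'
  have h1 : wa hC χ (kst k) m' m ≠ 0 := by
    intro h0
    apply hm'
    unfold bt
    rw [h0, map_zero, mul_zero, ite_self]
  obtain ⟨y, hy⟩ : ∃ y, kst k (tp hC K m') y * wf hC χ m y ≠ 0 := by
    by_contra hcon
    push Not at hcon
    apply h1
    unfold wa
    rw [finsum_congr hcon, finsum_zero]
  obtain ⟨u, hu, rfl⟩ := wf_supp hC (right_ne_zero_of_mul hy)
  have h2 : k (u • tp hC K m) (tp hC K m') ≠ 0 := by
    intro h0
    apply left_ne_zero_of_mul hy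
    unfold kst
    rw [h0, map_zero]
  have h3 : k (tp hC K m) (u⁻¹ • tp hC K m') ≠ 0 := by
    rw [← hk.inv u, smul_inv_smul]
    exact h2
  refine ⟨u⁻¹ • tp hC K m', h3, ?_⟩
  exact hor_unique hC (hidx _) ⟨u⁻¹, inv_mem hu, rfl⟩

theorem TW_eq [Finite K] {k : XX C K → XX C K → ℂ} (hk : IsKer k) {m : Fin r → ℤ}
    (hm : GoodU hC χ m) (x : XX C K) :
    TW k (wf hC χ m) x = ∑ m' ∈ (bt_fin hC (χ := χ) hk m).toFinset,
      wa hC χ (kst k) m' m * wf hC χ m' x := by
  classical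
  obtain ⟨u, hu, m₀, rfl⟩ := iwa hC x
  have h1 : TW k (wf hC χ m) (u • tp hC K m₀) = χ u * wa hC χ (kst k) m₀ m :=
    TW_smul hC hχ hk hm hu _
  have h2 : ∀ m' ∈ (bt_fin hC (χ := χ) hk m).toFinset, m' ≠ m₀ →
      wa hC χ (kst k) m' m * wf hC χ m' (u • tp hC K m₀) = 0 := by
    intro m' _ hne
    rw [wf_zero hC, mul_zero]
    intro h3
    exact hne (hor_unique hC h3 ⟨u, hu, rfl⟩)
  rw [h1]
  by_cases hS : m₀ ∈ (bt_fin hC (χ := χ) hk m).toFinset
  · rw [Finset.sum_eq_single_of_mem m₀ hS h2]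
    have h3 : bt hC χ k m m₀ ≠ 0 := (Set.Finite.mem_toFinset _).1 hS
    have h4 : GoodU hC χ m₀ := by
      by_contra h
      apply h3
      unfold bt
      rw [if_neg h]
    rw [wf_eq hC hχ h4 hu]
    ring
  · rw [Finset.sum_eq_zero fun m' hm' => h2 m' hm' fun h => hS (h ▸ hm')]
    have h3 : bt hC χ k m m₀ = 0 := by
      by_contra h
      exact hS ((Set.Finite.mem_toFinset _).2 h)
    have h4 : wa hC χ (kst k) m₀ m = 0 := by
      by_cases hg : GoodU hC χ m₀
      · unfold bt at h3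
        rw [if_pos hg] at h3
        rcases mul_eq_zero.1 h3 with h5 | h5
        · exfalso
          have hq : (Nat.card K : ℂ) ≠ 0 := by exact_mod_cast Nat.card_pos.ne'
          exact zpow_ne_zero _ hq h5
        · exact (map_eq_zero _).1 h5
      · exact wa_zero hC hχ hk hm hg
    rw [h4, mul_zero]

end

theorem rel : RelStmt := by
  intro r C hC K _ _ N hN χ hχ k hk f lam hf hlam m hm
  classical
  have hS := bt_fin hC (χ := χ) hk m
  refine ⟨hS, ?_⟩
  have hq : (Nat.card K : ℂ) ≠ 0 := by exact_mod_cast Nat.card_pos.ne'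
  have hWinv : ∀ m', GoodU hC χ m' → ∀ γ ∈ U0 C N, ∀ x,
      wf hC χ m' (γ • x) = wf hC χ m' x := by
    intro m' hm' γ hγ x
    rw [wf_smul hC hχ hm' (mem_U0.1 hγ).1, hχ.lev γ hγ, one_mul]
  have hWfin : ∀ m', {o : MulAction.orbitRel.Quotient (U0 C N) (XX C K) |
      wf hC χ m' o.out ≠ 0}.Finite := fun m' =>
    (hor_fin hC hN m').subset fun o ho => wf_supp hC ho
  have h1 := adj hC hk hf hlam (hWinv m hm) (hWfin m)
  have h2 : H6.pet (U0 C N) (TW k (wf hC χ m)) f = ∑ m' ∈ hS.toFinset,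
      (starRingEnd ℂ) (wa hC χ (kst k) m' m) * wh hC N χ m' f := by
    unfold wh H6.pet
    have h3 : ∀ o : MulAction.orbitRel.Quotient (U0 C N) (XX C K),
        (starRingEnd ℂ) (TW k (wf hC χ m) o.out) * f o.out /
          (Nat.card (MulAction.stabilizer (U0 C N) o.out) : ℂ) =
        ∑ m' ∈ hS.toFinset, (starRingEnd ℂ) (wa hC χ (kst k) m' m) *
          ((starRingEnd ℂ) (wf hC χ m' o.out) * f o.out /
            (Nat.card (MulAction.stabilizer (U0 C N) o.out) : ℂ)) := by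
      intro o
      rw [TW_eq hC hχ hk hm, map_sum, Finset.sum_mul, Finset.sum_div]
      refine Finset.sum_congr rfl fun m' _ => ?_
      rw [map_mul]
      ring
    refine (finsum_congr h3).trans ?_
    rw [finsum_sum_comm]
    · refine Finset.sum_congr rfl fun m' _ => ?_
      exact (mul_finsum _ _).symm
    · intro m' _
      refine (hWfin m').subset fun o ho h0 => ?_
      apply ho
      show _ * (_ / _) = _
      rw [h0, map_zero, zero_mul, zero_div, mul_zero]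
  have h4 : wv hC N χ m f = (Nat.card K : ℂ) ^ hv m * wh hC N χ m f := by
    unfold wv
    rw [if_pos hm]
  have h5 : ∑ᶠ m', bt hC χ k m m' * wv hC N χ m' f =
      ∑ m' ∈ hS.toFinset, bt hC χ k m m' * wv hC N χ m' f := by
    apply finsum_eq_sum_of_support_subset
    intro m' hm'
    rw [Set.Finite.coe_toFinset]
    exact left_ne_zero_of_mul hm'
  rw [h5, h4]
  have h6 : lam * ((Nat.card K : ℂ) ^ hv m * wh hC N χ m f) =
      (Nat.card K : ℂ) ^ hv m * (lam * H6.pet (U0 C N) (wf hC χ m) f) := by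
    unfold wh
    ring
  rw [h6, h1, h2, Finset.mul_sum]
  refine Finset.sum_congr rfl fun m' hm' => ?_
  have h7 : GoodU hC χ m' := by
    by_contra h
    have h8 : bt hC χ k m m' ≠ 0 := (Set.Finite.mem_toFinset _).1 hm'
    apply h8
    unfold bt
    rw [if_neg h]
  unfold bt wv
  rw [if_pos h7, if_pos h7, zpow_sub₀ hq]
  have h9 : (Nat.card K : ℂ) ^ hv m' ≠ 0 := zpow_ne_zero _ hq
  field_simp

end Pool.Agent.WHC.H10
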